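import Mathlib

open SimpleGraph

namespace Pool.Agent.Results.MP_d70946_co.LadderHandle

/-! ### Split-free cable terms -/

/-- Terms of type `p → q` over the vertex set `V`. The constructor `reorder` (free reordering of the
lists of cables) is not a letter and does not change the type. -/
inductive Term (V : Type) : ℕ → ℕ → Type
  | e : Term V 1 1
  | nu (S : Finset V) (h : S.Nonempty) : Term V 0 1
  | kappa : Term V 1 0
  | phi : Term V 2 1
  | B : Term V 2 2
  | K : Term V 1 1
  | comp {p q r : ℕ} (s : Term V p q) (t : Term V q r) : Term V p r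
  | par {p q p' q' : ℕ} (s : Term V p q) (t : Term V p' q') : Term V (p + p') (q + q')
  | reorder {p q : ℕ} (σ : Equiv.Perm (Fin p)) (t : Term V p q) (τ : Equiv.Perm (Fin q)) : Term V p q

/-- The list of output cables, given the list of input cables. -/
def Term.out {V : Type} [DecidableEq V] : {p q : ℕ} → Term V p q → (Fin p → Finset V) → (Fin q → Finset V)
  | _, _, .e, c => c
  | _, _, .nu S _, _ => fun _ => S
  | _, _, .kappa, _ => Fin.elim0
  | _, _, .phi, c => fun _ => c 0 ∪ c 1
  | _, _, .B, c => c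
  | _, _, .K, c => c
  | _, _, .comp s t, c => t.out (s.out c)
  | _, _, .par s t, c => Fin.append (s.out fun i => c (Fin.castAdd _ i)) (t.out fun i => c (Fin.natAdd _ i))
  | _, _, .reorder σ t τ, c => fun j => t.out (fun i => c (σ i)) (τ j)

/-- The (ordered) pairs added as edges by the letters `B` and `K` of the term. -/
def Term.edges {V : Type} [DecidableEq V] : {p q : ℕ} → Term V p q → (Fin p → Finset V) → Finset (V × V)
  | _, _, .e, _ => ∅
  | _, _, .nu _ _, _ => ∅
  | _, _, .kappa, _ => ∅
  | _, _, .phi, _ => ∅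
  | _, _, .B, c => (c 0 ×ˢ c 1) ∪ (c 1 ×ˢ c 0)
  | _, _, .K, c => (c 0).offDiag
  | _, _, .comp s t, c => s.edges c ∪ t.edges (s.out c)
  | _, _, .par s t, c => (s.edges fun i => c (Fin.castAdd _ i)) ∪ (t.edges fun i => c (Fin.natAdd _ i))
  | _, _, .reorder σ t _, c => t.edges (fun i => c (σ i))

/-- How many times a vertex is created. -/
def Term.created {V : Type} [DecidableEq V] : {p q : ℕ} → Term V p q → V → ℕ
  | _, _, .e, _ => 0
  | _, _, .nu S _, v => if v ∈ S then 1 else 0
  | _, _, .kappa, _ => 0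
  | _, _, .phi, _ => 0
  | _, _, .B, _ => 0
  | _, _, .K, _ => 0
  | _, _, .comp s t, v => s.created v + t.created v
  | _, _, .par s t, v => s.created v + t.created v
  | _, _, .reorder _ t _, v => t.created v

/-- The maximum of the cable ranks `p + q` of all subterm occurrences. -/
def Term.maxcr {V : Type} : {p q : ℕ} → Term V p q → ℕ
  | _, _, .e => 1 + 1
  | _, _, .nu _ _ => 0 + 1
  | _, _, .kappa => 1 + 0
  | _, _, .phi => 2 + 1
  | _, _, .B => 2 + 2
  | _, _, .K => 1 + 1
  | _, _, @Term.comp _ p _ r s t => max (p + r) (max s.maxcr t.maxcr)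
  | _, _, @Term.par _ p q p' q' s t => max ((p + p') + (q + q')) (max s.maxcr t.maxcr)
  | _, _, @Term.reorder _ p q _ t _ => max (p + q) t.maxcr

/-- A closed term is legal for `G`. -/
def Legal {V : Type} [DecidableEq V] (G : SimpleGraph V) (t : Term V 0 0) : Prop :=
  (∀ v, t.created v = 1) ∧ ∀ u v, (u, v) ∈ t.edges Fin.elim0 ↔ G.Adj u v

def HasTerm {V : Type} [DecidableEq V] (G : SimpleGraph V) (k : ℕ) : Prop :=
  ∃ t : Term V 0 0, Legal G t ∧ t.maxcr ≤ k

/-- split-free cable term width -/
noncomputable def sfw {V : Type} [DecidableEq V] (G : SimpleGraph V) : ℕ := sInf {k | HasTerm G k}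

/-! ### Rank-width -/

open Classical in
/-- cutrank: the rank over `GF(2)` of the `X × (V ∖ X)` submatrix of the adjacency matrix -/
noncomputable def cutrank {V : Type} [Fintype V] (G : SimpleGraph V) (X : Set V) : ℕ :=
  Matrix.rank (Matrix.of fun (x : X) (y : (Xᶜ : Set V)) => if G.Adj x.1 y.1 then (1 : ZMod 2) else 0)

/-- rank-decompositions -/
structure RankDec (V : Type) where
  ι : Type
  fin : Finite ι
  T : SimpleGraph ι
  tree : T.IsTree
  subcubic : ∀ x, (T.neighborSet x).ncard ≤ 3
  leaf : V → ι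
  inj : Function.Injective leaf
  leaves : ∀ x, (∃ v, leaf v = x) ↔ (T.neighborSet x).ncard = 1

/-- the vertices whose leaves are on the side of `a` of the tree edge `ab` -/
def RankDec.side {V : Type} (D : RankDec V) (a b : D.ι) : Set V :=
  {v | (D.T.deleteEdges {s(a, b)}).Reachable a (D.leaf v)}

def HasWidth {V : Type} [Fintype V] (G : SimpleGraph V) (w : ℕ) : Prop :=
  ∃ D : RankDec V, ∀ a b, D.T.Adj a b → cutrank G (D.side a b) ≤ w

/-- rank-width -/
noncomputable def rw {V : Type} [Fintype V] (G : SimpleGraph V) : ℕ :=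
  if Fintype.card V ≤ 1 then 0 else sInf {w | HasWidth G w}

/-! ### The graph: a ladder with five rungs and one more vertex joined to two of its corners -/

def am : Fin 11 → ℕ := ![1058, 69, 138, 276, 1544, 65, 162, 324, 648, 272, 17]

def Lad : SimpleGraph (Fin 11) where
  Adj u v := (am u).testBit v = true
  symm := ⟨by decide⟩
  loopless := ⟨by decide⟩

instance : DecidableRel Lad.Adj := fun u v => inferInstanceAs (Decidable ((am u).testBit v = true))

abbrev TT := Term (Fin 11)

def sg (v : Fin 11) : TT 0 1 := .nu {v} (Finset.singleton_nonempty v)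

def start : TT 0 2 := .comp (q := 2) (.par (sg 0) (sg 10)) .B
def rail (v : Fin 11) : TT 1 1 :=
  .comp (q := 2) (.comp (p := 1) (q := 2) (.par .e (sg v)) .B) (.par .kappa .e : TT (1 + 1) (0 + 1))
def rung (u l : Fin 11) : TT 2 2 := .comp (q := 2) (.par (rail u) (rail l) : TT (1 + 1) (1 + 1)) .B
def arc : TT 1 1 :=
  .comp (q := 2) (.comp (.comp (.comp (.comp (.comp (p := 1) (q := 2) (.par .e (sg 5)) .B)
    (rung 1 6)) (rung 2 7)) (rung 3 8)) (rung 4 9)) (.par .e .kappa : TT (1 + 1) (1 + 0))
def full : TT 0 0 :=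
  .comp (q := 2) (.comp (.comp start (.par arc .e : TT (1 + 1) (1 + 1))) .B)
    (.par .kappa .kappa : TT (1 + 1) (0 + 0))

lemma full_maxcr : full.maxcr = 4 := by decide

set_option maxRecDepth 100000 in
lemma full_created : ∀ v, full.created v = 1 := by decide

set_option maxRecDepth 100000 in
lemma full_edges : ∀ u v, (u, v) ∈ full.edges Fin.elim0 ↔ Lad.Adj u v := by decide


/-! ### A balanced edge -/

section Tree

variable {ι : Type} {T : SimpleGraph ι}

lemma bridge_not (hT : T.IsTree) {a b : ι} (h : T.Adj a b) :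
    ¬ (T.deleteEdges {s(a, b)}).Reachable a b := by
  have := (SimpleGraph.isAcyclic_iff_forall_adj_isBridge.mp hT.isAcyclic) h
  rw [SimpleGraph.isBridge_iff] at this
  exact this

lemma union_sides (hT : T.IsTree) (a b w : ι) :
    (T.deleteEdges {s(a, b)}).Reachable a w ∨ (T.deleteEdges {s(a, b)}).Reachable b w := by
  have key : ∀ u v (p : T.Walk u v),
      ((T.deleteEdges {s(a, b)}).Reachable a u ∨ (T.deleteEdges {s(a, b)}).Reachable b u) →
      ((T.deleteEdges {s(a, b)}).Reachable a v ∨ (T.deleteEdges {s(a, b)}).Reachable b v) := by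
    intro u v p
    induction p with
    | nil => exact id
    | @cons u u' v h q ih =>
      intro h1
      apply ih
      by_cases he : s(u, u') = s(a, b)
      · rw [Sym2.eq_iff] at he
        rcases he with ⟨_, he⟩ | ⟨_, he⟩
        · right; rw [he]
        · left; rw [he]
      · have hadj : (T.deleteEdges {s(a, b)}).Adj u u' := by
          rw [SimpleGraph.deleteEdges_adj]
          exact ⟨h, by simpa using he⟩
        rcases h1 with h1 | h1
        · exact Or.inl (h1.trans hadj.reachable)
        · exact Or.inr (h1.trans hadj.reachable)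
  obtain ⟨p⟩ := hT.connected.preconnected a w
  exact key a w p (Or.inl (SimpleGraph.Reachable.refl _))

lemma swap_del (a b : ι) : T.deleteEdges {s(a, b)} = T.deleteEdges {s(b, a)} := by
  rw [Sym2.eq_swap]

/-- a walk in a graph below `T` avoiding the vertex `a` is a walk of `T` minus an edge at `a` -/
lemma lift_avoid {T' : SimpleGraph ι} (hle : T' ≤ T) {a c x d : ι} (p : T'.Walk c x) (hp : a ∉ p.support) :
    (T.deleteEdges {s(a, d)}).Reachable c x := by
  induction p with
  | nil => exact SimpleGraph.Reachable.refl _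
  | @cons u u' v h q ih =>
    rw [SimpleGraph.Walk.support_cons, List.mem_cons, not_or] at hp
    have h1 : a ≠ u' := by
      intro h2
      apply hp.2
      rw [h2]
      exact q.start_mem_support
    have hadj : (T.deleteEdges {s(a, d)}).Adj u u' := by
      rw [SimpleGraph.deleteEdges_adj]
      refine ⟨hle h, ?_⟩
      rw [Set.mem_singleton_iff, Sym2.eq_iff]
      rintro (⟨h3, _⟩ | ⟨_, h3⟩)
      · exact hp.1 h3.symm
      · exact h1 h3.symm
    exact hadj.reachable.trans (ih hp.2)

lemma decomp_side {a b x : ι} (h : (T.deleteEdges {s(a, b)}).Reachable a x) :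
    x = a ∨ ∃ c, T.Adj a c ∧ c ≠ b ∧ (T.deleteEdges {s(c, a)}).Reachable c x := by
  classical
  obtain ⟨p, hp⟩ := h.exists_isPath
  cases p with
  | nil => exact Or.inl rfl
  | @cons _ c _ h q =>
    rw [SimpleGraph.Walk.cons_isPath_iff] at hp
    rw [SimpleGraph.deleteEdges_adj] at h
    refine Or.inr ⟨c, h.1, ?_, ?_⟩
    · intro hc
      apply h.2
      rw [hc]; rfl
    · rw [swap_del c a]
      exact lift_avoid (SimpleGraph.deleteEdges_le _) q hp.2

lemma comp_sub (hT : T.IsTree) {a b c x : ι} (hac : T.Adj a c) (hcb : c ≠ b)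
    (h : (T.deleteEdges {s(c, a)}).Reachable c x) :
    (T.deleteEdges {s(a, b)}).Reachable a x := by
  have hadj : (T.deleteEdges {s(a, b)}).Adj a c := by
    rw [SimpleGraph.deleteEdges_adj]
    refine ⟨hac, ?_⟩
    rw [Set.mem_singleton_iff, Sym2.eq_iff]
    rintro (⟨_, h3⟩ | ⟨h3, h4⟩)
    · exact hcb h3
    · exact hac.ne h4.symm
  obtain ⟨p⟩ := h
  have hap : a ∉ p.support := by
    classical
    intro ha
    have : (T.deleteEdges {s(c, a)}).Reachable c a := ⟨p.takeUntil a ha⟩
    exact bridge_not hT hac.symm this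
  exact hadj.reachable.trans (lift_avoid (SimpleGraph.deleteEdges_le _) p hap)

end Tree

lemma side_sub {V : Type} (D : RankDec V) (a b : D.ι) :
    D.side a b ⊆ {v | D.leaf v = a} ∪ ⋃ c ∈ D.T.neighborSet a \ {b}, D.side c a := by
  intro v hv
  rcases decomp_side hv with h | ⟨c, h1, h2, h3⟩
  · exact Or.inl h
  · refine Or.inr ?_
    rw [Set.mem_iUnion₂]
    exact ⟨c, ⟨h1, h2⟩, h3⟩

lemma ncard_leaf {V : Type} [Finite V] (D : RankDec V) (a : D.ι) : {v | D.leaf v = a}.ncard ≤ 1 := by
  rw [Set.ncard_le_one (Set.toFinite _)]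
  intro v hv w hw
  exact D.inj (hv.trans hw.symm)

/-- if `v` is mapped to `a` then the other side is everything else -/
lemma leaf_side {V : Type} [Finite V] (D : RankDec V) {a b : D.ι} (hab : D.T.Adj a b) {v : V} (hv : D.leaf v = a) :
    (D.side a b).ncard ≤ 1 := by
  have h1 : (D.T.neighborSet a).ncard = 1 := (D.leaves a).mp ⟨v, hv⟩
  have h2 : D.T.neighborSet a \ {b} = ∅ := by
    rw [Set.ncard_eq_one] at h1
    obtain ⟨z, hz⟩ := h1
    have : b ∈ D.T.neighborSet a := hab
    rw [hz, Set.mem_singleton_iff] at this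
    rw [hz, this]; simp
  refine le_trans (Set.ncard_le_ncard ?_ (Set.toFinite _)) (ncard_leaf D a)
  refine (side_sub D a b).trans ?_
  rw [h2]; simp

/-- descent step -/
lemma descend {V : Type} [Finite V] (D : RankDec V) {a b : D.ι} (hab : D.T.Adj a b)
    (h : 7 ≤ (D.side a b).ncard) :
    ∃ c, D.T.Adj a c ∧ c ≠ b ∧ 4 ≤ (D.side c a).ncard := by
  by_contra hcon
  push Not at hcon
  have hfin := D.fin
  have hno : ¬ ∃ v, D.leaf v = a := by
    rintro ⟨v, hv⟩
    have := leaf_side D hab hv
    omega
  have hempty : {v | D.leaf v = a} = ∅ := by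
    ext v; simp only [Set.mem_ofPred_eq, Set.mem_empty_iff_false, iff_false]
    exact fun hv => hno ⟨v, hv⟩
  have hsub := side_sub D a b
  rw [hempty, Set.empty_union] at hsub
  have hN : (D.T.neighborSet a \ {b}).ncard ≤ 2 := by
    have h1 := D.subcubic a
    have h2 := Set.ncard_sdiff_singleton_add_one (s := D.T.neighborSet a) (a := b) hab (Set.toFinite _)
    omega
  -- bound the union
  have hfinN : (D.T.neighborSet a \ {b}).Finite := Set.toFinite _
  have hle : (⋃ c ∈ D.T.neighborSet a \ {b}, D.side c a).ncard ≤ 6 := by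
    classical
    have e1 : (⋃ c ∈ D.T.neighborSet a \ {b}, D.side c a) =
        ⋃ c ∈ hfinN.toFinset, D.side c a := by simp
    rw [e1]
    have e2 := Finset.set_ncard_biUnion_le hfinN.toFinset (fun c => D.side c a)
    refine e2.trans ?_
    have e3 : ∑ c ∈ hfinN.toFinset, (D.side c a).ncard ≤ ∑ c ∈ hfinN.toFinset, 3 := by
      apply Finset.sum_le_sum
      intro c hc
      rw [Set.Finite.mem_toFinset] at hc
      have := hcon c hc.1 hc.2
      omega
    refine e3.trans ?_
    rw [Finset.sum_const, smul_eq_mul, ← Set.ncard_eq_toFinset_card _ hfinN]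
    omega
  have := Set.ncard_le_ncard hsub (Set.toFinite _)
  omega

lemma balanced (D : RankDec (Fin 11)) :
    ∃ a b, D.T.Adj a b ∧ 4 ≤ (D.side a b).ncard ∧ (D.side a b).ncard ≤ 6 := by
  have hfin := D.fin
  have key : ∀ n : ℕ, ∀ a b : D.ι, D.T.Adj a b → 7 ≤ (D.side a b).ncard →
      {x | (D.T.deleteEdges {s(a, b)}).Reachable a x}.ncard ≤ n →
      ∃ a b, D.T.Adj a b ∧ 4 ≤ (D.side a b).ncard ∧ (D.side a b).ncard ≤ 6 := by
    intro n
    induction n with
    | zero =>
      intro a b _ _ h
      have : a ∈ {x | (D.T.deleteEdges {s(a, b)}).Reachable a x} := SimpleGraph.Reachable.refl _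
      have h2 := (Set.ncard_pos (Set.toFinite _)).mpr ⟨a, this⟩
      omega
    | succ n ih =>
      intro a b hab h7 hn
      obtain ⟨c, h1, h2, h3⟩ := descend D hab h7
      by_cases h4 : (D.side c a).ncard ≤ 6
      · exact ⟨c, a, h1.symm, h3, h4⟩
      · refine ih c a h1.symm (by omega) ?_
        have hlt : {x | (D.T.deleteEdges {s(c, a)}).Reachable c x}.ncard <
            {x | (D.T.deleteEdges {s(a, b)}).Reachable a x}.ncard := by
          apply Set.ncard_lt_ncard _ (Set.toFinite _)
          rw [Set.ssubset_iff_of_subset]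
          · exact ⟨a, SimpleGraph.Reachable.refl _, bridge_not D.tree h1.symm⟩
          · intro x hx
            exact comp_sub D.tree h1 h2 hx
        omega
  -- the start
  have h1 : (D.T.neighborSet (D.leaf 0)).ncard = 1 := (D.leaves _).mp ⟨0, rfl⟩
  rw [Set.ncard_eq_one] at h1
  obtain ⟨y, hy⟩ := h1
  have hadj : D.T.Adj (D.leaf 0) y := by
    have : y ∈ D.T.neighborSet (D.leaf 0) := by rw [hy]; rfl
    exact this
  have h2 := leaf_side D hadj rfl
  have h3 : (Set.univ : Set (Fin 11)) ⊆ D.side (D.leaf 0) y ∪ D.side y (D.leaf 0) := by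
    intro v _
    rcases union_sides D.tree (D.leaf 0) y (D.leaf v) with h | h
    · exact Or.inl h
    · rw [swap_del] at h
      exact Or.inr h
  have h4 := Set.ncard_le_ncard h3 (Set.toFinite _)
  rw [Set.ncard_univ, Nat.card_eq_fintype_card, Fintype.card_fin] at h4
  have h5 := Set.ncard_union_le (D.side (D.leaf 0) y) (D.side y (D.leaf 0))
  exact key _ y (D.leaf 0) hadj.symm (by omega) le_rfl


/-! ### Every cut with `4 ≤ |X| ≤ 6` has cutrank at least three -/

/-- parity of the number of chosen rows having a one in column `y` -/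
def cmb (e0 e1 e2 : Bool) (a b c y : ℕ) : Bool :=
  (e0 && (am' a).testBit y) ^^ (e1 && (am' b).testBit y) ^^ (e2 && (am' c).testBit y)
where am' (i : ℕ) : ℕ := [1058, 69, 138, 276, 1544, 65, 162, 324, 648, 272, 17].getD i 0

def good (m a b c : ℕ) : Bool :=
  [(true, false, false), (false, true, false), (false, false, true), (true, true, false),
    (true, false, true), (false, true, true), (true, true, true)].all fun e =>
    (List.range 11).any fun y => !(m.testBit y) && cmb e.1 e.2.1 e.2.2 a b c y

def cnt (m : ℕ) : ℕ := ((List.range 11).map fun i => (m.testBit i).toNat).sum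

def chk (m : ℕ) : Bool :=
  (cnt m).blt 4 || Nat.blt 6 (cnt m) ||
    (List.range 11).any fun a => m.testBit a && (List.range 11).any fun b => Nat.blt a b && m.testBit b &&
      (List.range 11).any fun c => Nat.blt b c && m.testBit c && good m a b c

lemma chk_all : (List.range 2048).all chk = true := by decide +kernel

lemma am'_eq : ∀ i : Fin 11, cmb.am' i = am i := by decide

open Classical in
lemma exists_rows (X : Set (Fin 11)) (h4 : 4 ≤ X.ncard) (h6 : X.ncard ≤ 6) :
    ∃ a b c : Fin 11, a ∈ X ∧ b ∈ X ∧ c ∈ X ∧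
      ∀ e0 e1 e2 : Bool, ¬ (e0 = false ∧ e1 = false ∧ e2 = false) →
        ∃ y : Fin 11, y ∉ X ∧ ((e0 && (am a).testBit y) ^^ (e1 && (am b).testBit y) ^^ (e2 && (am c).testBit y)) = true := by
  set m := Nat.ofBits (fun i : Fin 11 => decide (i ∈ X)) with hm
  have hbit : ∀ i : Fin 11, m.testBit i = decide (i ∈ X) := by
    intro i
    rw [hm, Nat.testBit_ofBits_lt _ _ i.2]
  have hlt : m < 2048 := by
    have := Nat.ofBits_lt_two_pow (fun i : Fin 11 => decide (i ∈ X))
    rw [hm]; exact lt_of_lt_of_eq this (by norm_num)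
  have hcnt : cnt m = X.ncard := by
    have e1 : cnt m = ∑ i : Fin 11, (m.testBit i).toNat := by
      rw [Fin.sum_univ_def]
      unfold cnt
      congr 1
    rw [e1, Set.ncard_eq_toFinset_card' X]
    have e2 : X.toFinset = Finset.univ.filter (fun i => i ∈ X) := by ext; simp
    rw [e2, Finset.card_filter]
    apply Finset.sum_congr rfl
    intro i _
    rw [hbit]
    by_cases h : i ∈ X <;> simp [h]
  have h1 : chk m = true := by
    have := chk_all
    rw [List.all_eq_true] at this
    exact this m (List.mem_range.mpr hlt)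
  unfold chk at h1
  rw [hcnt] at h1
  simp only [Bool.or_eq_true, List.any_eq_true, Bool.and_eq_true, List.mem_range] at h1
  rcases h1 with (h1 | h1) | h1
  · have := Nat.le_of_ble_eq_true h1
    omega
  · have := Nat.le_of_ble_eq_true h1
    omega
  · obtain ⟨a, ha, ha2, b, hb, ⟨_, hb2⟩, c, hc, ⟨_, hc2⟩, hg⟩ := h1
    have ea := hbit ⟨a, ha⟩
    have eb := hbit ⟨b, hb⟩
    have ec := hbit ⟨c, hc⟩
    simp only at ea eb ec
    rw [ha2] at ea; rw [hb2] at eb; rw [hc2] at ec
    refine ⟨⟨a, ha⟩, ⟨b, hb⟩, ⟨c, hc⟩, of_decide_eq_true ea.symm, of_decide_eq_true eb.symm,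
      of_decide_eq_true ec.symm, ?_⟩
    intro e0 e1 e2 hne
    unfold good at hg
    rw [List.all_eq_true] at hg
    have hmem : (e0, e1, e2) ∈ [(true, false, false), (false, true, false), (false, false, true), (true, true, false),
      (true, false, true), (false, true, true), (true, true, true)] := by
      cases e0 <;> cases e1 <;> cases e2 <;> simp at hne ⊢
    have h2 := hg _ hmem
    rw [List.any_eq_true] at h2
    obtain ⟨y, hy, h3⟩ := h2
    rw [List.mem_range] at hy
    rw [Bool.and_eq_true] at h3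
    refine ⟨⟨y, hy⟩, ?_, ?_⟩
    · intro hyX
      have := hbit ⟨y, hy⟩
      simp only [hyX, decide_true] at this
      rw [this] at h3
      simp at h3
    · have h4 := h3.2
      unfold cmb at h4
      rw [← am'_eq ⟨a, ha⟩, ← am'_eq ⟨b, hb⟩, ← am'_eq ⟨c, hc⟩]
      exact h4

lemma xor_lemma : ∀ e0 e1 e2 f0 f1 f2 : Bool, ((e0 && f0) ^^ (e1 && f1) ^^ (e2 && f2)) = true →
    ((if e0 = true then (1 : ZMod 2) else 0) * (if f0 = true then (1 : ZMod 2) else 0) +
      (if e1 = true then (1 : ZMod 2) else 0) * (if f1 = true then (1 : ZMod 2) else 0) +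
      (if e2 = true then (1 : ZMod 2) else 0) * (if f2 = true then (1 : ZMod 2) else 0)) ≠ 0 := by
  decide

lemma three_le_cutrank (X : Set (Fin 11)) (h4 : 4 ≤ X.ncard) (h6 : X.ncard ≤ 6) :
    3 ≤ cutrank Lad X := by
  classical
  obtain ⟨a, b, c, ha, hb, hc, h⟩ := exists_rows X h4 h6
  set M : Matrix X (Xᶜ : Set (Fin 11)) (ZMod 2) :=
    Matrix.of fun (x : X) (y : (Xᶜ : Set (Fin 11))) => if Lad.Adj x.1 y.1 then (1 : ZMod 2) else 0 with hM
  have hcr : cutrank Lad X = M.rank := by
    unfold cutrank
    rw [hM]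
    congr 1
    ext x y
    simp only [Matrix.of_apply]
    split_ifs <;> rfl
  rw [hcr, Matrix.rank_eq_finrank_span_row]
  have hli : LinearIndependent (ZMod 2) (![M.row ⟨a, ha⟩, M.row ⟨b, hb⟩, M.row ⟨c, hc⟩]) := by
    rw [Fintype.linearIndependent_iff]
    intro g hg
    by_contra hcon
    push Not at hcon
    have hz : ∀ z : ZMod 2, z ≠ 0 → z = 1 := by decide
    have hz2 : ∀ z : ZMod 2, z = if decide (z = 1) = true then 1 else 0 := by decide
    obtain ⟨i, hi⟩ := hcon
    obtain ⟨y, hy, hy2⟩ := h (decide (g 0 = 1)) (decide (g 1 = 1)) (decide (g 2 = 1)) (by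
      rintro ⟨h0, h1, h2⟩
      apply hi
      by_contra h3
      have h4 := hz _ h3
      fin_cases i
      · simp at h0 h4; exact h0 h4
      · simp at h1 h4; exact h1 h4
      · simp at h2 h4; exact h2 h4)
    have h1 := congrFun hg ⟨y, hy⟩
    rw [Finset.sum_apply, Fin.sum_univ_three] at h1
    have hr : ∀ x (hx : x ∈ X), M.row ⟨x, hx⟩ ⟨y, hy⟩ = if (am x).testBit y = true then 1 else 0 := by
      intro x hx
      rfl
    simp only [Pi.smul_apply, Matrix.cons_val_zero, Matrix.cons_val_one, Matrix.cons_val_two,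
      Matrix.head_cons, Matrix.tail_cons, hr, smul_eq_mul, Pi.zero_apply] at h1
    rw [hz2 (g 0), hz2 (g 1), hz2 (g 2)] at h1
    clear hz hz2 hr
    revert h1
    revert hy2
    generalize decide (g 0 = 1) = e0
    generalize decide (g 1 = 1) = e1
    generalize decide (g 2 = 1) = e2
    generalize (am a).testBit y = f0
    generalize (am b).testBit y = f1
    generalize (am c).testBit y = f2
    intro h5 h6
    exact xor_lemma e0 e1 e2 f0 f1 f2 h5 h6
  have h1 := hli.fintype_card_le_finrank
  have hsub : ∀ i, (![M.row ⟨a, ha⟩, M.row ⟨b, hb⟩, M.row ⟨c, hc⟩]) i ∈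
      Submodule.span (ZMod 2) (Set.range M.row) := by
    intro i
    apply Submodule.subset_span
    fin_cases i
    · exact ⟨_, rfl⟩
    · exact ⟨_, rfl⟩
    · exact ⟨_, rfl⟩
  have hli2 : LinearIndependent (ZMod 2) (fun i : Fin 3 =>
      (⟨_, hsub i⟩ : Submodule.span (ZMod 2) (Set.range M.row))) := by
    apply LinearIndependent.of_comp (Submodule.subtype _)
    exact hli
  have h7 := hli2.fintype_card_le_finrank
  rw [Fintype.card_fin] at h7
  exact h7

/-! ### Rank-decompositions exist -/

def cpar (i : Fin 20) : Fin 20 := ![0, 0, 1, 2, 3, 4, 5, 6, 7, 0, 0, 1, 2, 3, 4, 5, 6, 7, 8, 8] i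

def cdep (i : Fin 20) : ℕ := ![0, 1, 2, 3, 4, 5, 6, 7, 8, 9, 9, 9, 9, 9, 9, 9, 9, 9, 9, 9] i

/-- Parent pointers define a tree. -/
lemma parentTree {V : Type} (root : V) (par : V → V) (dep : V → ℕ)
    (h : ∀ u, u ≠ root → dep (par u) < dep u) (hr : par root = root) :
    (SimpleGraph.fromRel (fun u v => par u = v)).IsTree := by
  classical
  set T := SimpleGraph.fromRel (fun u v => par u = v) with hTdef
  have hadj : ∀ u, u ≠ root → T.Adj u (par u) := by
    intro u hu
    rw [hTdef, SimpleGraph.fromRel_adj]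
    refine ⟨?_, Or.inl rfl⟩
    intro h1
    have := h u hu
    rw [← h1] at this
    exact lt_irrefl _ this
  have hreach : ∀ n u, dep u ≤ n → T.Reachable u root := by
    intro n
    induction n with
    | zero =>
      intro u hu
      by_cases h1 : u = root
      · rw [h1]
      · have := h u h1; omega
    | succ n ih =>
      intro u hu
      by_cases h1 : u = root
      · rw [h1]
      · exact (hadj u h1).reachable.trans (ih (par u) (by have := h u h1; omega))
  have hconn : T.Connected := (SimpleGraph.connected_iff_exists_forall_reachable _).mpr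
    ⟨root, fun u => (hreach _ u le_rfl).symm⟩
  refine IsTree.mk hconn ?_
  intro v c hc
  -- maximal depth vertex in the support
  obtain ⟨m, hm, hmax⟩ := Finset.exists_max_image c.support.toFinset dep
    ⟨v, by simp [c.start_mem_support]⟩
  have hm' : m ∈ c.support := by simpa using hm
  have hc' := hc.rotate hm'
  have hnil : ¬ (c.rotate m hm').Nil := hc'.not_nil
  have key : ∀ x, T.Adj m x → x ∈ c.support → x = par m := by
    intro x hx hxs
    rw [hTdef, SimpleGraph.fromRel_adj] at hx
    rcases hx with ⟨hne, hx | hx⟩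
    · exact hx.symm
    · exfalso
      by_cases h1 : x = root
      · rw [h1, hr] at hx; rw [h1] at hne; exact hne hx.symm
      · have h2 := h x h1
        have h3 := hmax x (by simpa using hxs)
        rw [hx] at h2; omega
  have hsup : ∀ x, x ∈ (c.rotate m hm').support → x ∈ c.support := by
    intro x hx
    have := (c.support_rotate m hm')
    by_cases h1 : x = m
    · rw [h1]; exact hm'
    · rw [← Walk.cons_tail_support, List.mem_cons] at hx
      rcases hx with hx | hx
      · exact absurd hx h1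
      · exact List.mem_of_mem_tail (this.mem_iff.mp hx)
  have e1 := key _ (Walk.adj_snd hnil) (hsup _ (Walk.getVert_mem_support _ _))
  have e2 := key _ (Walk.adj_penultimate hnil).symm (hsup _ (Walk.getVert_mem_support _ _))
  exact hc'.snd_ne_penultimate (e1.trans e2.symm)

def CT : SimpleGraph (Fin 20) := SimpleGraph.fromRel (fun u v => cpar u = v)

instance : DecidableRel CT.Adj := fun u v =>
  inferInstanceAs (Decidable (u ≠ v ∧ (cpar u = v ∨ cpar v = u)))

lemma nb_count (x : Fin 20) : (CT.neighborSet x).ncard = (Finset.univ.filter (CT.Adj x)).card := by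
  rw [← Set.ncard_coe_finset]
  congr 1
  ext y; simp

set_option maxRecDepth 100000 in
lemma nb_le : ∀ x : Fin 20, (Finset.univ.filter (CT.Adj x)).card ≤ 3 := by decide

set_option maxRecDepth 100000 in
lemma nb_one : ∀ x : Fin 20, (Finset.univ.filter (CT.Adj x)).card = 1 ↔ 9 ≤ x.val := by decide

def caterpillar : RankDec (Fin 11) where
  ι := Fin 20
  fin := inferInstance
  T := CT
  tree := parentTree 0 cpar cdep (by decide) (by decide)
  subcubic x := by rw [nb_count]; exact nb_le x
  leaf v := ⟨9 + v.val, by omega⟩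
  inj := by
    intro v w h
    simp only [Fin.mk.injEq] at h
    exact Fin.ext (by omega)
  leaves x := by
    rw [nb_count, nb_one]
    constructor
    · rintro ⟨v, rfl⟩
      simp
    · intro h
      exact ⟨⟨x.val - 9, by omega⟩, Fin.ext (by simp; omega)⟩

lemma cutrank_le (X : Set (Fin 11)) : cutrank Lad X ≤ 11 := by
  classical
  unfold cutrank
  refine (Matrix.rank_le_card_height _).trans ?_
  exact (Fintype.card_subtype_le _).trans (by simp)

lemma width_nonempty : {w | HasWidth Lad w}.Nonempty :=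
  ⟨11, caterpillar, fun _ _ _ => cutrank_le _⟩

lemma hasWidth_rw : HasWidth Lad (rw Lad) := by
  unfold rw
  rw [if_neg (by simp)]
  exact Nat.sInf_mem width_nonempty

lemma three_le_of_hasWidth {w : ℕ} (h : HasWidth Lad w) : 3 ≤ w := by
  obtain ⟨D, hD⟩ := h
  obtain ⟨a, b, hab, h4, h6⟩ := balanced D
  exact (three_le_cutrank _ h4 h6).trans (hD a b hab)

lemma hasTerm_four : HasTerm Lad 4 :=
  ⟨full, ⟨full_created, full_edges⟩, full_maxcr.le⟩

/-- The inequality `rw(G) ≤ ⌊sfw(G)/2⌋` fails: there is a graph on 11 vertices with `sfw(G) ≤ 4` and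
`rw(G) ≥ 3`. (The first two conjuncts say that both widths of this graph are attained.) -/
theorem result : ∃ G : SimpleGraph (Fin 11), HasTerm G (sfw G) ∧ HasWidth G (rw G) ∧
    sfw G ≤ 4 ∧ 3 ≤ rw G ∧ ¬ rw G ≤ sfw G / 2 := by
  have h1 : sfw Lad ≤ 4 := Nat.sInf_le hasTerm_four
  have h2 : 3 ≤ rw Lad := three_le_of_hasWidth hasWidth_rw
  have h3 : HasTerm Lad (sfw Lad) := Nat.sInf_mem (s := {k | HasTerm Lad k}) ⟨4, hasTerm_four⟩
  exact ⟨Lad, h3, hasWidth_rw, h1, h2, by omega⟩

end Pool.Agent.Results.MP_d70946_co.LadderHandle
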